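import Pool.Agent.NL.StmtsA

/-!
# Squad NLO, row MOV: the data of a step (helper59)
-/

set_option autoImplicit false

open MeasureTheory Filter Topology

noncomputable section

namespace Pool.Agent.NL.H59

/-- Row MOV. -/
theorem mov (hBAT : BatStmt) (hCOU : CouStmt) (hFAM : FamStmt) (hNRV : NrvStmt) (hRCN : RcnStmt) :
    MovStmt := by
  intro X _ _ f F G Ψ hcrv hTT a ε hε hεa W hW q hq hqW hqR E _
  have ha : 0 < a := hε.trans_le hεa
  have hε2 : 0 < ε / 2 := by positivity
  obtain ⟨Φ₀, hΦ₀⟩ := hNRV X G Ψ W E ε hε
  obtain ⟨p, y, b1, b2, b3, b4⟩ := hBAT X f F G Ψ hcrv hTT a W hW q.support hqW Φ₀ E (ε / 2) hε2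
  obtain ⟨N, ϖ, J, c1, c2, c3, c4⟩ := hCOU q.support p (fun r hr => (b1 r hr).1)
  set T₀ : Finset ℝ := W ∪ q.support.biUnion fun r => (p r).support with hT₀
  have hJT : ∀ i, i < N → ∀ r ∈ q.support, J i r ∈ T₀ := by
    intro i hi r hr
    exact Finset.mem_union_right _ (Finset.mem_biUnion.2 ⟨r, hr, c3 i hi r hr⟩)
  have hJW : ∀ i, i < N → ∀ r ∈ q.support, J i r ∉ W := by
    intro i hi r hr h
    exact (Finset.disjoint_left.1 (b1 r hr).2.1) (c3 i hi r hr) h
  have hK : ∀ i, i < N → q.support ∪ q.support.image (J i) ⊆ T₀ := by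
    intro i hi
    refine Finset.union_subset (hqW.trans Finset.subset_union_left) ?_
    intro x hx
    obtain ⟨r, hr, rfl⟩ := Finset.mem_image.1 hx
    exact hJT i hi r hr
  have hN0 : N ≠ 0 := by
    rintro rfl
    simp at c2
  have hN1 : (1 : ℝ) ≤ N := by exact_mod_cast Nat.one_le_iff_ne_zero.2 hN0
  have hN1' : (0 : ℝ) < N := by linarith
  have hεN : 0 < ε / 2 / N := by positivity
  have hεN1 : ε / 2 / N ≤ ε / 2 := div_le_self hε2.le hN1
  have : FiniteDimensional ℝ (Submodule.span ℝ (y '' (q.support : Set ℝ))) :=
    FiniteDimensional.span_of_finite ℝ (q.support.finite_toSet.image y)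
  obtain ⟨φ, T, Φ, hF, hT0, hΦ⟩ := hFAM X f F G Ψ hcrv a T₀ b3 Φ₀
    (E ⊔ Submodule.span ℝ (y '' (q.support : Set ℝ))) (ε / 2 / N) hεN N
    (fun i => q.support ∪ q.support.image (J i)) hK
  have hmonΦ : ∀ i j, j ≤ i → i < N → Φ j ⊆ Φ i := by
    intro i j hji
    induction i, hji using Nat.le_induction with
    | base => intro _; exact Finset.Subset.refl _
    | succ i hji ih => intro hi; exact (ih (by omega)).trans (hF.mon i (by omega))
  -- the supports of the copies
  have hRT : q.support ⊆ T 0 := by
    rw [hT0]
    exact hqW.trans Finset.subset_union_left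
  have hUT : ∀ i, i ≤ N → q.support ∪ (Finset.range i).biUnion (fun j => q.support.image (φ j)) ⊆
      T i ∧ ¬ Rch G Ψ a (q.support ∪ (Finset.range i).biUnion fun j => q.support.image (φ j)) := by
    intro i
    induction i with
    | zero =>
      intro _
      simp only [Finset.range_zero, Finset.biUnion_empty, Finset.union_empty]
      exact ⟨hRT, hqR⟩
    | succ i ih =>
      intro hi
      obtain ⟨h1, h2⟩ := ih (by omega)
      have h3 := hF.nr i (by omega) _ h1 h2
      have hR : q.support.image (φ i) ⊆ ((q.support ∪ (Finset.range i).biUnion fun j =>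
          q.support.image (φ j)) ∩ (q.support ∪ q.support.image (J i))).image (φ i) := by
        refine Finset.image_subset_image ?_
        exact Finset.subset_inter Finset.subset_union_left Finset.subset_union_left
      have hsub : q.support ∪ (Finset.range (i + 1)).biUnion (fun j => q.support.image (φ j)) ⊆
          (q.support ∪ (Finset.range i).biUnion fun j => q.support.image (φ j)) ∪
            ((q.support ∪ (Finset.range i).biUnion fun j => q.support.image (φ j)) ∩
              (q.support ∪ q.support.image (J i))).image (φ i) := by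
        rw [Finset.range_add_one, Finset.biUnion_insert]
        refine Finset.union_subset ?_ (Finset.union_subset ?_ ?_)
        · exact Finset.subset_union_left.trans Finset.subset_union_left
        · exact hR.trans Finset.subset_union_right
        · exact Finset.subset_union_right.trans Finset.subset_union_left
      refine ⟨?_, (hRCN X G Ψ a _ h3).2.2 _ hsub⟩
      rw [hF.suc i (by omega), Finset.range_add_one, Finset.biUnion_insert]
      refine Finset.union_subset ?_ (Finset.union_subset ?_ ?_)
      · exact (Finset.subset_union_left.trans h1).trans Finset.subset_union_left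
      · exact (Finset.image_subset_image Finset.subset_union_left).trans Finset.subset_union_right
      · exact (Finset.subset_union_right.trans h1).trans Finset.subset_union_left
  have hJR : ∀ i, i < N → ¬ Rch G Ψ a (q.support ∪ q.support.image (J i)) := by
    intro i hi
    exact (b4 (J i) (c3 i hi)).1 q.support hqW (Finset.Subset.refl _) hqR
  have hl1 : ∀ b : ℝ →₀ ℝ, 0 ≤ l1 b := by
    intro b
    exact Finset.sum_nonneg fun _ _ => abs_nonneg _
  have hVs : ∀ r ∈ q.support, ∑ i ∈ Finset.range N, ϖ i • G (J i r) = V G (p r) := by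
    intro r hr
    rw [← c4 r hr, map_sum]
    refine Finset.sum_congr rfl fun i _ => ?_
    rw [map_smul, V, Finsupp.linearCombination_single, one_smul]
  have hcoo : ∀ i, i < N → ∀ s ∈ q.support ∪ q.support.image (J i), ∀ k ∈ Φ i,
      |G (φ i s) k - G s k| ≤ ε / 2 := fun i hi s hs k hk => (hF.coo i hi s hs k hk).trans hεN1
  refine ⟨N, ϖ, J, φ, T, y, ?_⟩
  refine
    { two := ?_
      pos := c1
      sum := c2
      WT := by rw [hT0]; exact Finset.subset_union_left
      suc := hF.suc
      gn := hF.gn
      Jm := fun i hi r hr => ⟨by rw [hT0]; exact hJT i hi r hr, hJW i hi r hr⟩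
      Jd := ?_
      inj := hF.inj
      new := hF.new
      nR := ?_
      nC := (hUT N le_rfl).2
      lo0 := ?_
      lo := ?_
      up := ?_
      upJ := ?_
      ret := ?_ }
  · -- `2 ≤ N`
    by_contra hN2
    have hN1 : N = 1 := by omega
    subst hN1
    have hne : q.support.Nonempty := by
      rw [Finset.nonempty_iff_ne_empty]
      intro h
      rw [Finsupp.support_eq_empty] at h
      have := hq.2
      rw [h, Finsupp.sum_zero_index] at this
      exact zero_ne_one this
    obtain ⟨r, hr⟩ := hne
    have h1 : p r = Finsupp.single (J 0 r) 1 := by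
      rw [← c4 r hr]
      rw [Finset.sum_range_one] at c2 ⊢
      rw [c2, one_smul]
    have h2 : (p r).support ⊆ q.support ∪ q.support.image (J 0) := by
      rw [h1]
      refine Finsupp.support_single_subset.trans ?_
      rw [Finset.singleton_subset_iff]
      exact Finset.mem_union_right _ (Finset.mem_image_of_mem _ hr)
    have h3 := (hRCN X G Ψ a _ (hJR 0 (by omega))).1 (p r) h2 (b1 r hr).1
    have h4 : rho Ψ (V G (p r)) ≤ ‖V G (p r) - Ψ (y r)‖ := by
      rw [← dist_eq_norm]
      exact Metric.infDist_le_dist_of_mem ⟨y r, rfl⟩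
    have h5 := (b1 r hr).2.2.1
    linarith
  · intro i hi k hk r hr r' hr' h
    by_contra hne
    have h1 := b2 r hr r' hr' hne
    refine (Finset.disjoint_left.1 h1) (c3 i hi r hr) ?_
    rw [h]
    exact c3 k hk r' hr'
  · intro i hi
    have hKi : q.support ∪ q.support.image (J i) ⊆ T i := by
      refine (hK i hi).trans ?_
      rw [← hT0]
      clear hUT
      have : ∀ j, j ≤ i → T 0 ⊆ T j := by
        intro j
        induction j with
        | zero => intro _; exact Finset.Subset.refl _
        | succ j ih =>
          intro hj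
          refine (ih (by omega)).trans ?_
          rw [hF.suc j (by omega)]
          exact Finset.subset_union_left
      exact this i le_rfl
    have h1 := hF.nr i hi _ hKi (hJR i hi)
    refine (hRCN X G Ψ a _ h1).2.2 _ ?_
    rw [Finset.inter_self]
    exact Finset.subset_union_right
  · intro b hb z hz
    obtain ⟨k, hk, hk1⟩ := hΦ₀ b hb z hz
    refine ⟨k, hk1, fun i hi r hr => ?_⟩
    have hki : k ∈ Φ i := hmonΦ i 0 (Nat.zero_le _) hi (hΦ hk)
    have hr1 : r ∈ q.support ∪ q.support.image (J i) := Finset.mem_union_left _ hr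
    have hr2 : J i r ∈ q.support ∪ q.support.image (J i) :=
      Finset.mem_union_right _ (Finset.mem_image_of_mem _ hr)
    refine ⟨(hcoo i hi r hr1 k hki).trans (by linarith), ?_⟩
    have h1 := hcoo i hi _ hr2 k hki
    have h2 := (b1 r hr).2.2.2 _ (c3 i hi r hr) k hk
    have h3 : G (φ i (J i r)) k - G r k =
        (G (φ i (J i r)) k - G (J i r) k) + (G (J i r) k - G r k) := by ring
    rw [h3]
    refine (abs_add_le _ _).trans ?_
    linarith
  · intro j hj b hb z hz
    obtain ⟨k, hk, hk1⟩ := hF.nrm j hj.le b hb z (Submodule.mem_sup_left hz)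
    refine ⟨k, hk1.trans ?_, fun i hji hi r hr => ?_⟩
    · refine mul_le_mul_of_nonneg_right ?_ (abs_nonneg _)
      linarith
    · have hki : k ∈ Φ i := hmonΦ i j hji hi hk
      exact (hcoo i hi r (Finset.mem_union_left _ hr) k hki).trans (by linarith)
  · intro i hi b hb z hz t ht
    refine (hF.up i hi b hb z hz t ht).trans ?_
    have h1 : ε / 2 / N ≤ ε / N := by
      apply div_le_div_of_nonneg_right _ hN1'.le
      linarith
    have h2 := mul_le_mul_of_nonneg_right h1 (add_nonneg (hl1 b) (norm_nonneg z))
    linarith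
  · intro i hi b hb z hz t ht
    refine ((b4 (J i) (c3 i hi)).2 b hb z hz t ht).trans ?_
    have h1 : ε / 2 ≤ ε := by linarith
    have h2 := mul_le_mul_of_nonneg_right h1 (add_nonneg (hl1 b) (norm_nonneg z))
    linarith
  · intro r hr
    rw [hVs r hr]
    have := (b1 r hr).2.2.1
    linarith

end Pool.Agent.NL.H59
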